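import Pool.Agent.R490.Lone

set_option autoImplicit false

/-!
# Almost primes in the reduced classes of every modulus, up to the end of the range
-/

namespace Pool.Agent.Results.MP_a78e8f_nt.AlmostPrimesEveryModulus

open Finset Filter

open Classical in
/-- the number of the `1 ≤ h ≤ t` for which `n + q h` has no prime factor `≤ q ^ (1 / r)` -/
noncomputable def A (r q t n : ℕ) : ℕ :=
  ((Icc 1 t).filter (fun h => ∀ p : ℕ, p.Prime → (p : ℝ) ≤ (q : ℝ) ^ (1 / (r : ℝ)) → ¬ p ∣ n + q * h)).card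

lemma A_eq (r q t n : ℕ) : A r q t n = R490.Cls.cnt q ⌊(q : ℝ) ^ (1 / (r : ℝ))⌋₊ t n := by
  classical
  unfold A R490.Cls.cnt
  congr 1
  apply Finset.filter_congr
  intro h _
  have hq : (0 : ℝ) ≤ (q : ℝ) ^ (1 / (r : ℝ)) := by positivity
  constructor
  · intro h1 p hp hpy
    exact h1 p hp ((Nat.le_floor_iff hq).1 hpy)
  · intro h1 p hp hpy
    exact h1 p hp ((Nat.le_floor_iff hq).2 hpy)

/-- **Almost primes are equidistributed in the reduced classes of every modulus `q`, in the mean over the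
classes, up to `q = x / (C log x)`.** -/
theorem result (θ ε : ℝ) (hθ : 0 < θ) (hε : 0 < ε) :
    ∃ (C : ℝ) (r0 : ℕ), 0 < C ∧ 2 ≤ r0 ∧ ∀ r : ℕ, r0 ≤ r → ∀ᶠ q : ℕ in atTop, ∀ Z Y T : ℕ,
      (q : ℝ) ^ θ ≤ Y → C * ((q.totient : ℝ) / q * Real.log q) ≤ r * T →
      ∀ t : ℕ → ℕ, (∀ n, t n ≤ T) →
        ∑ n ∈ (Ioc Z (Z + Y)).filter (fun n => n.Coprime q),
          |(A r q (t n) n : ℝ) - r * Real.exp (-Real.eulerMascheroniConstant) * t n /
            ((q.totient : ℝ) / q * Real.log q)| ≤ ε * (r * T * Y / Real.log q) := by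
  obtain ⟨ε1, hε1⟩ : ∃ ε1 : ℝ, ε1 = min ε 1 / 4 := ⟨_, rfl⟩
  have hε10 : 0 < ε1 := by rw [hε1]; positivity
  have hε11 : 4 * ε1 ≤ 1 := by rw [hε1]; have := min_le_right ε 1; linarith
  have hε12 : 4 * ε1 ≤ ε := by rw [hε1]; have := min_le_left ε 1; linarith
  obtain ⟨C0, r1, hC0, hr1, h1⟩ := R490.Lone.maxi θ ε1 hθ hε10
  obtain ⟨r2, hr2, h2⟩ := R490.Lone.card_cop θ 1 hθ one_pos
  refine ⟨6 * C0, max r1 r2, by positivity, hr1.trans (le_max_left _ _), ?_⟩
  intro r hr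
  have hr2' : 2 ≤ r := hr1.trans ((le_max_left _ _).trans hr)
  have hrr : (2 : ℝ) ≤ r := by exact_mod_cast hr2'
  filter_upwards [h1 r ((le_max_left _ _).trans hr), h2 r ((le_max_right _ _).trans hr),
    Y879.AP.mean_asym r hr2' ε1 hε10, eventually_ge_atTop 3] with q g1 g2 g3 g4
  intro Z Y T hY hT t ht
  obtain ⟨y, hy⟩ : ∃ y, y = ⌊(q : ℝ) ^ (1 / (r : ℝ))⌋₊ := ⟨_, rfl⟩
  rw [← hy, R490.Cls.V_eq] at g3
  have hq0 : (0 : ℝ) < q := by exact_mod_cast (by omega : 0 < q)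
  have hlq : 0 < Real.log q := Real.log_pos (by exact_mod_cast (by omega : 1 < q))
  have htot : 0 < (q.totient : ℝ) := by exact_mod_cast Nat.totient_pos.2 (by omega : 0 < q)
  obtain ⟨f, hf⟩ : ∃ f, f = (q.totient : ℝ) / q := ⟨_, rfl⟩
  have hf0 : 0 < f := by rw [hf]; positivity
  obtain ⟨L, hL⟩ : ∃ L, L = Real.log q := ⟨_, rfl⟩
  obtain ⟨c, hc⟩ : ∃ c, c = r * Real.exp (-Real.eulerMascheroniConstant) := ⟨_, rfl⟩
  obtain ⟨v, hv⟩ : ∃ v, v = R490.Cls.V q y := ⟨_, rfl⟩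
  have g1' := g1 y hy Z Y hY T
  have g2' := (abs_le.1 (g2 Z Y hY)).2
  rw [← hv] at g1' g3
  rw [← hf] at g1' g2' g3 hT ⊢
  rw [← hL] at g3 hT hlq ⊢
  rw [← hc] at g3 ⊢
  have hγ : 1 / 3 ≤ Real.exp (-Real.eulerMascheroniConstant) := by
    have a1 := Real.eulerMascheroniConstant_lt_two_thirds
    have a2 := Real.add_one_le_exp (-Real.eulerMascheroniConstant)
    linarith
  have hγ1 : Real.exp (-Real.eulerMascheroniConstant) ≤ 1 := by
    rw [Real.exp_le_one_iff]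
    have := Real.one_half_lt_eulerMascheroniConstant
    linarith
  have hc1 : (r : ℝ) / 3 ≤ c := by
    rw [hc]
    have := mul_le_mul_of_nonneg_left hγ (show (0 : ℝ) ≤ r by positivity)
    linarith
  have hc2 : c ≤ r := by
    rw [hc]
    have := mul_le_mul_of_nonneg_left hγ1 (show (0 : ℝ) ≤ r by positivity)
    linarith
  obtain ⟨a, ha⟩ : ∃ a, a = v * f * L := ⟨_, rfl⟩
  rw [← ha] at g3
  have g3' := abs_le.1 g3
  have ha1 : (r : ℝ) / 6 ≤ a := by linarith [g3'.1]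
  have ha2 : a ≤ 2 * r := by linarith [g3'.2]
  have hfL : 0 < f * L := by positivity
  have hva : v = a / (f * L) := by
    rw [ha]
    field_simp
  have hTv : C0 ≤ T * v := by
    rw [hva, mul_div_assoc', le_div_iff₀ hfL]
    have b1 : C0 * (f * L) ≤ r * T / 6 := by linarith
    have b2 : (T : ℝ) * (r / 6) ≤ T * a := mul_le_mul_of_nonneg_left ha1 (Nat.cast_nonneg _)
    linarith
  have k1 := g1' hTv t ht
  have e1 : ∀ n, |(A r q (t n) n : ℝ) - c * t n / (f * L)| ≤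
      |(R490.Cls.cnt q y (t n) n : ℝ) - t n * v| + T * (ε1 / (f * L)) := by
    intro n
    rw [A_eq, ← hy]
    have b1 : (R490.Cls.cnt q y (t n) n : ℝ) - c * t n / (f * L) =
        ((R490.Cls.cnt q y (t n) n : ℝ) - t n * v) + (t n : ℝ) * ((a - c) / (f * L)) := by
      rw [hva]
      ring
    rw [b1]
    refine (abs_add_le _ _).trans ?_
    apply add_le_add le_rfl
    rw [abs_mul, abs_div, abs_of_nonneg (Nat.cast_nonneg (t n)), abs_of_pos hfL]
    have b2 : (t n : ℝ) ≤ T := by exact_mod_cast ht n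
    apply mul_le_mul b2 _ (by positivity) (Nat.cast_nonneg _)
    exact div_le_div_of_nonneg_right g3 hfL.le
  have e2 : (Ioc Z (Z + Y)).filter (fun n => n.Coprime q) = R490.Lone.Om q Z Y := rfl
  rw [e2]
  refine (Finset.sum_le_sum fun n _ => e1 n).trans ?_
  rw [Finset.sum_add_distrib, Finset.sum_const, nsmul_eq_mul]
  have e3 : ((R490.Lone.Om q Z Y).card : ℝ) * (T * (ε1 / (f * L))) ≤ ε1 * (r * T * Y / L) := by
    calc ((R490.Lone.Om q Z Y).card : ℝ) * (T * (ε1 / (f * L))) ≤ (2 * (Y * f)) * (T * (ε1 / (f * L))) := by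
          apply mul_le_mul_of_nonneg_right _ (by positivity)
          linarith
      _ = ε1 * (2 * T * Y / L) := by field_simp
      _ ≤ ε1 * (r * T * Y / L) := by gcongr
  have e4 : ε1 * (T * v * (Y * f)) ≤ 2 * ε1 * (r * T * Y / L) := by
    have b1 : ε1 * (T * v * (Y * f)) = ε1 * (a * T * Y / L) := by
      rw [hva]
      field_simp
    rw [b1]
    have b2 : a * T * Y / L ≤ 2 * r * T * Y / L := by gcongr
    calc ε1 * (a * T * Y / L) ≤ ε1 * (2 * r * T * Y / L) := mul_le_mul_of_nonneg_left b2 hε10.le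
      _ = _ := by ring
  have e5 : 4 * ε1 * (r * T * Y / L) ≤ ε * (r * T * Y / L) := by gcongr
  have e6 : 0 ≤ ε1 * (r * T * Y / L) := by positivity
  linarith

end Pool.Agent.Results.MP_a78e8f_nt.AlmostPrimesEveryModulus
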