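import Pool.Agent.R490.Test

set_option autoImplicit false

/-!
# The limit law of almost primes in the reduced classes of every modulus, against unbounded test functions
-/

namespace Pool.Agent.Results.MP_a78e8f_nt.EndpointLimitLaw

open Finset Filter

/-- The product of `1 - 1 / p` over the primes `p ≤ y` which do not divide `q`. -/
noncomputable def V (q y : ℕ) : ℝ :=
  ∏ p ∈ (Finset.range (y + 1)).filter (fun p => p.Prime ∧ ¬ p ∣ q), (1 - 1 / (p : ℝ))

open Classical in
/-- The number of the `1 ≤ h ≤ T` for which `n + q h` has no prime factor `≤ y`: the number of the almost primes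
among the first `T` terms after `n` of the progression of `n` modulo `q`. -/
noncomputable def W (q y T n : ℕ) : ℕ :=
  ((Icc 1 T).filter (fun h => ∀ p : ℕ, p.Prime → p ≤ y → ¬ p ∣ n + q * h)).card

/-- **The limit law over the reduced residue classes of EVERY modulus at the end of the range, against all test
functions of polynomial growth.** Let `θ, A, ε > 0`, `x0` and `k`. There is `r0` such that for all `r ≥ r0` the
following holds for EVERY large `q`, with `y = q ^ (1 / r)`, and EVERY interval `(Z, Z + Y]` with `Y ≥ q ^ θ`, for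
instance a complete system of residues (`Y φ(q) / q` is the number of the reduced classes in it), all `T` with
`T V ≤ x0` and ALL functions `f` with `|f(j)| ≤ A (1 + j) ^ k` (which may depend on `q`, `T`, `Z`, `Y`): the mean
of `f(W)` over the reduced classes is, up to `ε`, the mean of `f` for the Poisson distribution with mean `T V`.
This contains the Poisson law (`f` an indicator function), all moments and central moments, and the mean absolute
error (`f(j) = |j - T V|`). -/
theorem result (θ x0 A ε : ℝ) (k : ℕ) (hθ : 0 < θ) (hA : 0 < A) (hε : 0 < ε) :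
    ∃ r0 : ℕ, 2 ≤ r0 ∧ ∀ r : ℕ, r0 ≤ r → ∀ᶠ q : ℕ in atTop, ∀ y : ℕ, y = ⌊(q : ℝ) ^ (1 / (r : ℝ))⌋₊ →
      ∀ Z Y : ℕ, (q : ℝ) ^ θ ≤ Y → ∀ T : ℕ, T * V q y ≤ x0 →
        ∀ f : ℕ → ℝ, (∀ j : ℕ, |f j| ≤ A * (1 + j) ^ k) →
          |∑ n ∈ (Ioc Z (Z + Y)).filter (fun n => n.Coprime q), f (W q y T n) -
            Y * ((q.totient : ℝ) / q) *
              ∑' j : ℕ, f j * (Real.exp (-(T * V q y)) * (T * V q y) ^ j / j.factorial)| ≤
            ε * (Y * ((q.totient : ℝ) / q)) :=
  Pool.Agent.R490.Test.test θ x0 A ε k hθ hA hε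

end Pool.Agent.Results.MP_a78e8f_nt.EndpointLimitLaw
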