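import Mathlib
import Pool.Agent.R503.N.PiD

/-!
Equidistribution of the primes over the multiples `q t ≤ x^θ`, every `θ < 43/84`, of EVERY SINGLE
squarefree modulus `q ≤ x^κ`, every `κ < 1/3`, in an arbitrary residue class `a` (which may depend on
`q`), relative to the number of primes in the class `a` modulo `q`, with a power saving; `t` runs over
the products of primes in `(x^ε, x^η]`, and the maximum over the heights `y ≤ x` is inside the sum.

The proof is the method of Zhang and Polymath 8a (bilinear forms, dispersion, completion of sums, one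
step of the `q`-van der Corput process, Weil's bound for Kloosterman sums) carried out for one
individual left modulus, into which `q` is put; the Weil bound and the completion of sums are from the
starting files (`Pool.Agent.Y826.Z`).
-/

set_option autoImplicit false

namespace Pool.Agent.Results.MP_a78e8f_nt.IndividualLargeDivisor

open Finset

/-- the number of primes `p ≤ y` with `p ≡ a (mod q)` -/
noncomputable def primePi (y q : ℕ) (a : ℤ) : ℕ :=
  ((Icc 1 y).filter (fun p : ℕ => p.Prime ∧ (p : ℤ) ≡ a [ZMOD q])).card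

open Classical in
/-- the positive integers `t` with `q t ≤ x^θ`, `q t` squarefree, `(a, t) = 1`, all of whose prime
factors lie in `(x^ε, x^η]` -/
noncomputable def cofactors (x : ℕ) (θ ε η : ℝ) (q : ℕ) (a : ℤ) : Finset ℕ :=
  (Icc 1 x).filter (fun t : ℕ => ((q * t : ℕ) : ℝ) ≤ (x : ℝ) ^ θ ∧ Squarefree (q * t) ∧
    Int.gcd a t = 1 ∧ ∀ p : ℕ, p.Prime → p ∣ t → (x : ℝ) ^ ε < p ∧ (p : ℝ) ≤ (x : ℝ) ^ η)

theorem primePi_eq (y q : ℕ) (a : ℤ) : (primePi y q a : ℝ) = Pool.Agent.R503.N.pn y q a := by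
  unfold primePi Pool.Agent.R503.N.pn
  congr 2
  ext p
  rw [mem_filter, mem_filter, Int.modEq_iff_dvd, dvd_sub_comm]

/-- **Each `q ≤ x^κ`, `κ < 1/3`: power saving over the `q t ≤ x^θ`, `θ < 43/84`.** -/
theorem result : ∀ θ κ : ℝ, θ < 43 / 84 → κ < 1 / 3 → ∃ η : ℝ, 0 < η ∧ ∀ ε : ℝ, 0 < ε →
    ∃ (δ : ℝ) (x₀ : ℕ), 0 < δ ∧ ∀ x : ℕ, x₀ ≤ x → ∀ q : ℕ, 0 < q → (q : ℝ) ≤ (x : ℝ) ^ κ →
    ∀ a : ℤ, Int.gcd a q = 1 → ∀ y : ℕ → ℕ, (∀ t, y t ≤ x) →
    ∑ t ∈ cofactors x θ ε η q a,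
      |(primePi (y t) (q * t) a : ℝ) - (primePi (y t) q a : ℝ) / (Nat.totient t : ℝ)| ≤
      (x : ℝ) ^ (1 - δ) / q := by
  intro θ κ hθ hκ
  obtain ⟨η, hη, h⟩ := Pool.Agent.R503.N.pi_max (max θ (1 / 2)) (max κ 0) (le_max_right _ _)
    (max_lt hθ (by norm_num)) (le_max_right _ _) (max_lt hκ (by norm_num))
  refine ⟨η, hη, fun ε hε => ?_⟩
  obtain ⟨δ, hδ, hev⟩ := h ε hε
  obtain ⟨x₀, hx₀⟩ := Filter.eventually_atTop.1 hev
  refine ⟨δ, max x₀ 1, hδ, ?_⟩
  intro x hx q hq hqκ a ha y hy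
  have hx1 : (1 : ℝ) ≤ x := by exact_mod_cast (le_max_right x₀ 1).trans hx
  have h1 := hx₀ x ((le_max_left _ _).trans hx) q hq
    (hqκ.trans (Real.rpow_le_rpow_of_exponent_le hx1 (le_max_left _ _))) a
    (Int.isCoprime_iff_gcd_eq_one.2 ha) (cofactors x θ ε η q a) (by
      intro t ht
      simp only [cofactors, mem_filter] at ht
      obtain ⟨_, h2, h3, h4, h5⟩ := ht
      refine ⟨h3, Int.isCoprime_iff_gcd_eq_one.2 h4, h5, ?_⟩
      push_cast at h2
      exact h2.trans (Real.rpow_le_rpow_of_exponent_le hx1 (le_max_left _ _))) y hy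
  simp only [primePi_eq]
  exact h1

end Pool.Agent.Results.MP_a78e8f_nt.IndividualLargeDivisor
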