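import Mathlib
import Pool.Agent.R503.T.SeqB

/-!
Equidistribution of the primes to the moduli `q p₁ ⋯ p_k ≤ x^θ`, every `θ < 103/204`, when the residue
classes are chosen ADAPTIVELY along the ordered sequences `(p₁, …, p_k)` of prime factors: the maximum over
the residue classes is partly inside the sum, one prime factor after the other,
`∑_{p₁} max_{a₁ mod p₁} ∑_{p₂} max_{a₂ mod p₁ p₂, a₂ ≡ a₁ (p₁)} ∑_{p₃} ⋯`,
and the class modulo the last part of the modulus, beyond `x^(1/2 - σ)`, is completely free.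

The proof is the method of Zhang and Polymath 8a (bilinear forms, dispersion, completion of sums, one
step of the `q`-van der Corput process, Weil's bound for Kloosterman sums), carried out for one left
modulus (the beginning of the sequence) and for arbitrary residue classes modulo its multiples; the
terms with a common prime factor of the two right moduli, where the classes need not be compatible, are
counted directly. The Weil bound and the completion of sums are from the starting files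
(`Pool.Agent.Y826.Z`).
-/

set_option autoImplicit false

namespace Pool.Agent.Results.MP_a78e8f_nt.NestedMaximum

open Finset

/-- the number of primes `p ≤ y` with `p ≡ a (mod q)` -/
noncomputable def primePi (y q : ℕ) (a : ℤ) : ℕ :=
  ((Icc 1 y).filter (fun p : ℕ => p.Prime ∧ (p : ℤ) ≡ a [ZMOD q])).card

/-- A finite tree `D` of sequences of primes `(p₁, …, p_k)`, written as the lists `[p_k, …, p₁]`. With a
sequence it contains its initial segments; `p_j ≤ x^η` for all `j` and `p_j² ≥ x^ρ p_i` for all `i ≤ j`;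
the modulus `q p₁ ⋯ p_k` is squarefree and at most `x^θ`. -/
structure PrimeTree (x q : ℕ) (θ ρ η : ℝ) (D : Finset (List ℕ)) : Prop where
  closed : ∀ p l, p :: l ∈ D → l ∈ D
  prime : ∀ p l, p :: l ∈ D → p.Prime ∧ (p : ℝ) ≤ (x : ℝ) ^ η
  order : ∀ p l, p :: l ∈ D → ∀ r ∈ p :: l, (x : ℝ) ^ ρ * r ≤ (p : ℝ) ^ 2
  size : ∀ l ∈ D, Squarefree (q * l.prod) ∧ ((q * l.prod : ℕ) : ℝ) ≤ (x : ℝ) ^ θ

/-- A choice of reduced residue classes `a(p₁, …, p_k)` modulo `q p₁ ⋯ p_k` along the tree `D`, such that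
`a(p₁, …, p_k) ≡ a(p₁, …, p_j) (mod q p₁ ⋯ p_j)` for all `j ≤ k` with `q p₁ ⋯ p_j ≤ x^(1/2 - σ)`. -/
structure AdaptiveClasses (x q : ℕ) (σ : ℝ) (D : Finset (List ℕ)) (a : List ℕ → ℤ) : Prop where
  coprime : ∀ l ∈ D, Int.gcd (a l) ((q * l.prod : ℕ) : ℤ) = 1
  coherent : ∀ l ∈ D, ∀ m, m <:+ l → ((q * m.prod : ℕ) : ℝ) ≤ (x : ℝ) ^ (1 / 2 - σ) →
    a l ≡ a m [ZMOD ((q * m.prod : ℕ) : ℤ)]

theorem primePi_eq (y q : ℕ) (a : ℤ) : (primePi y q a : ℝ) = Pool.Agent.R503.N.pn y q a := by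
  unfold primePi Pool.Agent.R503.N.pn
  congr 2
  ext p
  rw [mem_filter, mem_filter, Int.modEq_iff_dvd, dvd_sub_comm]

theorem PrimeTree.toLS {x q : ℕ} {θ ρ η σ : ℝ} {D : Finset (List ℕ)} {a : List ℕ → ℤ} (hq : 0 < q)
    (T : PrimeTree x q θ ρ η D) (C : AdaptiveClasses x q σ D a) : Pool.Agent.R503.T.LS x q θ ρ η σ a D := by
  have hmem : ∀ l, l ∈ D → ∀ p ∈ l, ∃ m, p :: m ∈ D := by
    intro l
    induction l with
    | nil => intro _ p hp; simp at hp
    | cons r l ih =>
      intro hl p hp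
      rcases List.mem_cons.1 hp with h | h
      · exact ⟨l, by rw [h]; exact hl⟩
      · exact ih (T.closed r l hl) p h
  refine ⟨hq, fun l hl => (T.size l hl).1, ?_, ?_, ?_, T.closed, ?_, ?_⟩
  · intro l hl p hp
    obtain ⟨m, hm⟩ := hmem l hl p hp
    obtain ⟨h1, h2⟩ := T.prime p m hm
    refine ⟨h1, ?_, h2⟩
    have h3 := T.order p m hm p (by simp)
    have hp0 : (0 : ℝ) < p := by exact_mod_cast h1.pos
    rw [pow_two] at h3
    exact le_of_mul_le_mul_right h3 hp0
  · intro l hl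
    have := (T.size l hl).2
    push_cast at this ⊢
    exact this
  · intro l hl
    exact Int.isCoprime_iff_gcd_eq_one.2 (C.coprime l hl)
  · intro l
    induction l with
    | nil => intro _; exact List.Pairwise.nil
    | cons r l ih =>
      intro hl
      rw [List.pairwise_cons]
      exact ⟨fun p hp => T.order r l hl p (List.mem_cons_of_mem _ hp), ih (T.closed r l hl)⟩
  · intro l hl m hm hle
    have h1 := C.coherent l hl m hm (by push_cast at hle ⊢; exact hle)
    rw [Int.modEq_iff_dvd, dvd_sub_comm] at h1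
    exact h1

/-- **Adaptively chosen residue classes up to `x^θ`, `θ < 103/204`, with a power saving.** -/
theorem result : ∀ θ η ρ σ κ : ℝ, 1 / 2 ≤ θ → 0 < η → 0 ≤ σ → 28 * (θ - 1 / 2) + 20 * η + 15 * σ < 1 / 3 →
    2 * (θ - 1 / 2) + σ < ρ → κ + σ < 1 / 3 →
    ∃ (δ : ℝ) (x₀ : ℕ), 0 < δ ∧ ∀ x : ℕ, x₀ ≤ x → ∀ q : ℕ, 0 < q → (q : ℝ) ≤ (x : ℝ) ^ κ →
    ∀ D : Finset (List ℕ), PrimeTree x q θ ρ η D → ∀ a : List ℕ → ℤ, AdaptiveClasses x q σ D a →
    ∀ y : List ℕ → ℕ, (∀ l, y l ≤ x) →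
    ∑ l ∈ D, |(primePi (y l) (q * l.prod) (a l) : ℝ) - (primePi (y l) q (a l) : ℝ) / (Nat.totient l.prod : ℝ)| ≤
      (x : ℝ) ^ (1 - δ) / q := by
  intro θ η ρ σ κ hθ hη hσ h1 h2 hκ
  have h3 : max κ 0 + σ < 1 / 3 := by
    rcases max_cases κ 0 with h | h
    · rw [h.1]; exact hκ
    · rw [h.1]; linarith
  obtain ⟨δ, hδ, hev⟩ := Pool.Agent.R503.T.seq_max θ η ρ σ (max κ 0) hθ hη hσ h1 h2 (le_max_right _ _) h3
  obtain ⟨x₀, hx₀⟩ := Filter.eventually_atTop.1 hev
  refine ⟨δ, max x₀ 1, hδ, ?_⟩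
  intro x hx q hq hqκ D T a C y hy
  have hx1 : (1 : ℝ) ≤ x := by exact_mod_cast (le_max_right x₀ 1).trans hx
  have h4 := hx₀ x ((le_max_left _ _).trans hx) q
    (hqκ.trans (Real.rpow_le_rpow_of_exponent_le hx1 (le_max_left _ _))) a D (T.toLS hq C) y hy
  simp only [primePi_eq]
  exact h4

end Pool.Agent.Results.MP_a78e8f_nt.NestedMaximum
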